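import Pool.Agent.H36.CH.Red1

/-! The two-cover lemma for conjugacy classes. -/

namespace H78.CT

open Subgroup H36.CH Pointwise

section

variable {G : Type*} [Group G]

/-- A subgroup with the index two property on a perfect subgroup contains it. -/
theorem perfect_le {W F : Subgroup G} (hW : ⁅W, W⁆ = W)
    (hF : ∀ x ∈ W, ∀ y ∈ W, x ∉ F → y ∉ F → x * y ∈ F) : W ≤ F := by
  rw [← hW, Subgroup.commutator_le]
  intro x hx y hy
  have hxi : x⁻¹ ∈ W := W.inv_mem hx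
  have hyi : y⁻¹ ∈ W := W.inv_mem hy
  have hni : ∀ z, z ∉ F → z⁻¹ ∉ F := fun z hz h1 => hz (by simpa using F.inv_mem h1)
  show x * y * x⁻¹ * y⁻¹ ∈ F
  by_cases hx0 : x ∈ F
  · by_cases hy0 : y ∈ F
    · exact F.mul_mem (F.mul_mem (F.mul_mem hx0 hy0) (F.inv_mem hx0)) (F.inv_mem hy0)
    · have h1 : y * x⁻¹ ∉ F := fun h1 => hy0 (by
        have := F.mul_mem h1 hx0
        rwa [inv_mul_cancel_right] at this)
      have h2 := hF _ (W.mul_mem hy hxi) _ hyi h1 (hni y hy0)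
      have h3 : x * y * x⁻¹ * y⁻¹ = x * (y * x⁻¹ * y⁻¹) := by group
      rw [h3]
      exact F.mul_mem hx0 h2
  · by_cases hy0 : y ∈ F
    · have h1 : x * y ∉ F := fun h1 => hx0 (by
        have := F.mul_mem h1 (F.inv_mem hy0)
        rwa [mul_inv_cancel_right] at this)
      have h2 := hF _ (W.mul_mem hx hy) _ hxi h1 (hni x hx0)
      exact F.mul_mem h2 (F.inv_mem hy0)
    · have h1 := hF _ hx _ hy hx0 hy0
      have h2 := hF _ hxi _ hyi (hni x hx0) (hni y hy0)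
      have h3 : x * y * x⁻¹ * y⁻¹ = (x * y) * (x⁻¹ * y⁻¹) := by group
      rw [h3]
      exact F.mul_mem h1 h2

/-- A perfect subgroup of a cyclic extension of `V` lies in `V`. -/
theorem perfect_le_cyclic {W V : Subgroup G} {y : G} (hW : ⁅W, W⁆ = W) (hy : y ∈ Nz V)
    (hle : ∀ w ∈ W, ∃ n : ℤ, w * y ^ n ∈ V) : W ≤ V := by
  have hyn : ∀ n : ℤ, ∀ v ∈ V, y ^ n * v * (y ^ n)⁻¹ ∈ V := fun n v hv =>
    ((Nz V).zpow_mem hy n v hv).1
  have hyn' : ∀ n : ℤ, ∀ v ∈ V, (y ^ n)⁻¹ * v * y ^ n ∈ V := fun n v hv =>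
    ((Nz V).zpow_mem hy n v hv).2
  conv_lhs => rw [← hW]
  rw [Subgroup.commutator_le]
  intro g hg h hh
  obtain ⟨n, hn⟩ := hle g hg
  obtain ⟨m, hm⟩ := hle h hh
  obtain ⟨v, hv⟩ : ∃ v, v = g * y ^ n := ⟨_, rfl⟩
  obtain ⟨u, hu⟩ : ∃ u, u = h * y ^ m := ⟨_, rfl⟩
  rw [← hv] at hn
  rw [← hu] at hm
  have hg' : g = v * (y ^ n)⁻¹ := by rw [hv]; group
  have hh' : h = u * (y ^ m)⁻¹ := by rw [hu]; group
  show g * h * g⁻¹ * h⁻¹ ∈ V
  have h1 : g * h * g⁻¹ * h⁻¹ = v * ((y ^ n)⁻¹ * u * y ^ n) * ((y ^ m)⁻¹ * v⁻¹ * y ^ m) * u⁻¹ := by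
    rw [hg', hh']
    have h2 : (y ^ n)⁻¹ * (y ^ m)⁻¹ * y ^ n = (y ^ m)⁻¹ := by
      rw [← zpow_neg, ← zpow_neg, ← zpow_add, ← zpow_add]
      congr 1
      ring
    calc v * (y ^ n)⁻¹ * (u * (y ^ m)⁻¹) * (v * (y ^ n)⁻¹)⁻¹ * (u * (y ^ m)⁻¹)⁻¹ =
        v * ((y ^ n)⁻¹ * u * y ^ n) * ((y ^ n)⁻¹ * (y ^ m)⁻¹ * y ^ n) * v⁻¹ * y ^ m * u⁻¹ := by
          group
      _ = _ := by rw [h2]; group
  rw [h1]
  exact V.mul_mem (V.mul_mem (V.mul_mem hn (hyn' n u hm)) (hyn' m _ (V.inv_mem hn))) (V.inv_mem hm)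

/-- An element of finite order conjugating `V` into itself normalises `V`. -/
theorem mem_Nz_of_pow {V : Subgroup G} {y : G} {n : ℕ} (hn : 0 < n) (hy : y ^ n = 1)
    (h : ∀ v ∈ V, y * v * y⁻¹ ∈ V) : y ∈ Nz V := by
  have key : ∀ k : ℕ, ∀ v ∈ V, y ^ k * v * (y ^ k)⁻¹ ∈ V := by
    intro k
    induction k with
    | zero => intro v hv; simpa using hv
    | succ k ih =>
      intro v hv
      have h1 := h _ (ih v hv)
      have h2 : y ^ (k + 1) * v * (y ^ (k + 1))⁻¹ = y * (y ^ k * v * (y ^ k)⁻¹) * y⁻¹ := by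
        rw [pow_succ']
        group
      rw [h2]
      exact h1
  intro v hv
  refine ⟨h v hv, ?_⟩
  have h1 := key (n - 1) v hv
  have h2 : y ^ (n - 1) = y⁻¹ := by
    have h3 : y ^ (n - 1) * y = 1 := by
      rw [← pow_succ, Nat.sub_add_cancel hn]
      exact hy
    exact eq_inv_of_mul_eq_one_left h3
  rw [h2, inv_inv] at h1
  exact h1

/-- The difference group of a set. -/
def Dif (T : Set G) : Subgroup G := Subgroup.closure {z | ∃ x ∈ T, ∃ y ∈ T, z = x * y⁻¹}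

theorem mem_Dif {T : Set G} {x y : G} (hx : x ∈ T) (hy : y ∈ T) : x * y⁻¹ ∈ Dif T :=
  Subgroup.subset_closure ⟨x, hx, y, hy, rfl⟩

/-- Step 1. -/
theorem cover_step {C T1 : Set G} {V' : Subgroup G} {y1 y2 : G}
    (hC : ∀ x ∈ C, ∀ g, g * x * g⁻¹ ∈ C) (hT : T1 ⊆ C) (hy1 : y1 ∈ T1)
    (hcov : ∀ x ∈ C, x * y1⁻¹ ∈ Dif T1 ∨ x * y2⁻¹ ∈ V') :
    (∀ v ∈ Dif T1, y1 * v * y1⁻¹ ∈ Dif T1) ∨ Dif T1 ≤ V' := by
  by_cases h0 : ∀ v ∈ Dif T1, y1 * v * y1⁻¹ ∈ Dif T1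
  · exact Or.inl h0
  · right
    push Not at h0
    obtain ⟨v, hv, hv1⟩ := h0
    have key : ∀ x ∈ T1, v * x * v⁻¹ * y2⁻¹ ∈ V' := by
      intro x hx
      refine (hcov _ (hC x (hT hx) v)).resolve_left ?_
      intro h1
      apply hv1
      have hu := mem_Dif hx hy1
      have h2 : y1 * v * y1⁻¹ =
          ((x * y1⁻¹)⁻¹ * (v⁻¹ * (v * x * v⁻¹ * y1⁻¹)))⁻¹ := by group
      rw [h2]
      exact (Dif T1).inv_mem ((Dif T1).mul_mem ((Dif T1).inv_mem hu)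
        ((Dif T1).mul_mem ((Dif T1).inv_mem hv) h1))
    have h3 : ∀ u ∈ Dif T1, v * u * v⁻¹ ∈ V' := by
      have h4 : Dif T1 ≤ V'.comap (MulAut.conj v).toMonoidHom := by
        rw [Dif, Subgroup.closure_le]
        rintro z ⟨x, hx, x', hx', rfl⟩
        show v * (x * x'⁻¹) * v⁻¹ ∈ V'
        have h5 := V'.mul_mem (key x hx) (V'.inv_mem (key x' hx'))
        have h6 : v * x * v⁻¹ * y2⁻¹ * (v * x' * v⁻¹ * y2⁻¹)⁻¹ = v * (x * x'⁻¹) * v⁻¹ := by group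
        rwa [h6] at h5
      exact h4
    intro w hw
    have h5 := h3 (v⁻¹ * w * v) ((Dif T1).mul_mem ((Dif T1).mul_mem ((Dif T1).inv_mem hv) hw) hv)
    have h6 : v * (v⁻¹ * w * v) * v⁻¹ = w := by group
    rwa [h6] at h5

/-- The setting of the two-cover lemma. -/
structure Cov (W : Subgroup G) (C : Set G) : Prop where
  perf : ⁅W, W⁆ = W
  min : ∀ N : Subgroup G, N.Normal → N ≠ ⊥ → W ≤ N
  conj : ∀ x ∈ C, ∀ g, g * x * g⁻¹ ∈ C
  trans : ∀ x ∈ C, ∀ z ∈ C, ∃ w ∈ W, z = w * x * w⁻¹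
  ord : ∀ x ∈ C, ∃ n : ℕ, 0 < n ∧ x ^ n = 1
  two : ∃ x ∈ C, ∃ y ∈ C, x ≠ y

theorem Cov.le_closure {W : Subgroup G} {C : Set G} (h : Cov W C) : W ≤ Subgroup.closure C := by
  refine h.min _ ⟨?_⟩ ?_
  · intro x hx g
    have h1 : Subgroup.closure C ≤ (Subgroup.closure C).comap (MulAut.conj g).toMonoidHom :=
      (Subgroup.closure_le _).mpr (fun z hz => Subgroup.subset_closure (h.conj z hz g))
    exact h1 hx
  · intro hb
    obtain ⟨x, hx, y, hy, hxy⟩ := h.two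
    have h1 : x ∈ (⊥ : Subgroup G) := hb ▸ Subgroup.subset_closure hx
    have h2 : y ∈ (⊥ : Subgroup G) := hb ▸ Subgroup.subset_closure hy
    rw [Subgroup.mem_bot] at h1 h2
    exact hxy (h1.trans h2.symm)

/-- The class is not contained in one coset of `Y` unless `W` lies in `Y`. -/
theorem Cov.one_coset {W : Subgroup G} {C : Set G} (h : Cov W C) {Y : Subgroup G} {y : G}
    (hy : ∀ x ∈ C, x * y⁻¹ ∈ Y) : W ≤ Y := by
  have h1 : Dif C ≤ Y := by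
    rw [Dif, Subgroup.closure_le]
    rintro z ⟨x, hx, x', hx', rfl⟩
    have h2 := Y.mul_mem (hy x hx) (Y.inv_mem (hy x' hx'))
    have h3 : x * y⁻¹ * (x' * y⁻¹)⁻¹ = x * x'⁻¹ := by group
    rwa [h3] at h2
  refine le_trans (h.min _ ⟨?_⟩ ?_) h1
  · intro x hx g
    have h2 : Dif C ≤ (Dif C).comap (MulAut.conj g).toMonoidHom := by
      refine (Subgroup.closure_le _).mpr ?_
      rintro z ⟨x, hx, x', hx', rfl⟩
      have h3 : g * (x * x'⁻¹) * g⁻¹ = (g * x * g⁻¹) * (g * x' * g⁻¹)⁻¹ := by group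
      show g * (x * x'⁻¹) * g⁻¹ ∈ Dif C
      rw [h3]
      exact mem_Dif (h.conj x hx g) (h.conj x' hx' g)
    exact h2 hx
  · intro hb
    obtain ⟨x, hx, x', hx', hxy⟩ := h.two
    have h2 : x * x'⁻¹ ∈ (⊥ : Subgroup G) := hb ▸ mem_Dif hx hx'
    rw [Subgroup.mem_bot] at h2
    exact hxy (mul_inv_eq_one.mp h2)

/-- Two cosets of a subgroup normalised by the representatives. -/
theorem Cov.two_cosets {W : Subgroup G} {C : Set G} (h : Cov W C) {Y : Subgroup G} {y1 y2 : G}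
    (h1 : y1 ∈ Nz Y) (h2 : y2 ∈ Nz Y) (hcov : ∀ x ∈ C, x * y1⁻¹ ∈ Y ∨ x * y2⁻¹ ∈ Y) : W ≤ Y := by
  have hCN : ∀ x ∈ C, x ∈ Nz Y := by
    have key : ∀ x z : G, z ∈ Nz Y → x * z⁻¹ ∈ Y → x ∈ Nz Y := by
      intro x z hz hx
      have h3 : x = (x * z⁻¹) * z := by group
      rw [h3]
      refine (Nz Y).mul_mem ?_ hz
      intro u hu
      exact ⟨Y.mul_mem (Y.mul_mem hx hu) (Y.inv_mem hx),
        Y.mul_mem (Y.mul_mem (Y.inv_mem hx) hu) hx⟩
    intro x hx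
    rcases hcov x hx with h3 | h3
    · exact key x y1 h1 h3
    · exact key x y2 h2 h3
  have hWN : W ≤ Nz Y := h.le_closure.trans (by
    rw [Subgroup.closure_le]
    exact hCN)
  -- the relation of lying in the same coset
  have three : ∀ x ∈ C, ∀ x' ∈ C, ∀ x'' ∈ C, x' * x⁻¹ ∉ Y → x'' * x'⁻¹ ∉ Y → x'' * x⁻¹ ∈ Y := by
    intro x hx x' hx' x'' hx'' n1 n2
    have same : ∀ (z z' y : G), z * y⁻¹ ∈ Y → z' * y⁻¹ ∈ Y → z' * z⁻¹ ∈ Y := by
      intro z z' y e1 e2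
      have e3 := Y.mul_mem e2 (Y.inv_mem e1)
      have e4 : z' * y⁻¹ * (z * y⁻¹)⁻¹ = z' * z⁻¹ := by group
      rwa [e4] at e3
    rcases hcov x hx with a1 | a1 <;> rcases hcov x' hx' with a2 | a2 <;>
      rcases hcov x'' hx'' with a3 | a3
    · exact same _ _ _ a1 a3
    · exact absurd (same _ _ _ a1 a2) n1
    · exact same _ _ _ a1 a3
    · exact absurd (same _ _ _ a2 a3) n2
    · exact absurd (same _ _ _ a2 a3) n2
    · exact same _ _ _ a1 a3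
    · exact absurd (same _ _ _ a1 a2) n1
    · exact same _ _ _ a1 a3
  let F : Subgroup G :=
    { carrier := {w | ∀ x ∈ C, w * x * w⁻¹ * x⁻¹ ∈ Y}
      mul_mem' := by
        intro a b ha hb x hx
        have e1 := ha _ (h.conj x hx b)
        have e2 := hb x hx
        have e3 : a * b * x * (a * b)⁻¹ * x⁻¹ =
            (a * (b * x * b⁻¹) * a⁻¹ * (b * x * b⁻¹)⁻¹) * (b * x * b⁻¹ * x⁻¹) := by group
        rw [e3]
        exact Y.mul_mem e1 e2
      one_mem' := by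
        intro x _
        have e : (1 : G) * x * 1⁻¹ * x⁻¹ = 1 := by group
        rw [e]
        exact Y.one_mem
      inv_mem' := by
        intro a ha x hx
        have e1 := ha _ (h.conj x hx a⁻¹)
        have e2 : a⁻¹ * x * a⁻¹⁻¹ * x⁻¹ =
            (a * (a⁻¹ * x * a⁻¹⁻¹) * a⁻¹ * (a⁻¹ * x * a⁻¹⁻¹)⁻¹)⁻¹ := by group
        rw [e2]
        exact Y.inv_mem e1 }
  have memF : ∀ w, w ∈ F ↔ ∀ x ∈ C, w * x * w⁻¹ * x⁻¹ ∈ Y := fun w => Iff.rfl
  have swap : ∀ w ∈ W, w ∉ F → ∀ x ∈ C, w * x * w⁻¹ * x⁻¹ ∉ Y := by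
    intro w hw hwF x hx hfix
    rw [memF] at hwF
    push Not at hwF
    obtain ⟨x0, hx0, hn0⟩ := hwF
    have hinj : ∀ z z' : G, w * z * w⁻¹ * (w * z' * w⁻¹)⁻¹ ∈ Y → z * z'⁻¹ ∈ Y := by
      intro z z' hz
      have e1 := (hWN hw _ hz).2
      have e2 : w⁻¹ * (w * z * w⁻¹ * (w * z' * w⁻¹)⁻¹) * w = z * z'⁻¹ := by group
      rwa [e2] at e1
    have hinj' : ∀ z z' : G, z * z'⁻¹ ∈ Y → w * z * w⁻¹ * (w * z' * w⁻¹)⁻¹ ∈ Y := by
      intro z z' hz
      have e1 := (hWN hw _ hz).1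
      have e2 : w * z * w⁻¹ * (w * z' * w⁻¹)⁻¹ = w * (z * z'⁻¹) * w⁻¹ := by group
      rw [e2]
      exact e1
    by_cases hs : x * x0⁻¹ ∈ Y
    · apply hn0
      have e1 := hinj' _ _ hs
      have e2 : w * x0 * w⁻¹ * x0⁻¹ = (w * x * w⁻¹ * (w * x0 * w⁻¹)⁻¹)⁻¹ *
          (w * x * w⁻¹ * x⁻¹) * (x * x0⁻¹) := by group
      rw [e2]
      exact Y.mul_mem (Y.mul_mem (Y.inv_mem e1) hfix) hs
    · have hs' : x0 * x⁻¹ ∉ Y := by
        intro e
        apply hs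
        have := Y.inv_mem e
        have e2 : (x0 * x⁻¹)⁻¹ = x * x0⁻¹ := by group
        rwa [e2] at this
      have e1 := three x hx x0 hx0 _ (h.conj x0 hx0 w) hs' hn0
      apply hs'
      apply hinj
      have e2 : w * x0 * w⁻¹ * (w * x * w⁻¹)⁻¹ = (w * x0 * w⁻¹ * x⁻¹) *
          (w * x * w⁻¹ * x⁻¹)⁻¹ := by group
      rw [e2]
      exact Y.mul_mem e1 (Y.inv_mem hfix)
  have hWF : W ≤ F := by
    refine perfect_le h.perf ?_
    intro w hw w' hw' n1 n2 x hx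
    have e1 := swap w' hw' n2 x hx
    have e2 := swap w hw n1 _ (h.conj x hx w')
    have e3 := three x hx _ (h.conj x hx w') _ (h.conj _ (h.conj x hx w') w) e1 e2
    have e4 : w * w' * x * (w * w')⁻¹ * x⁻¹ = w * (w' * x * w'⁻¹) * w⁻¹ * x⁻¹ := by group
    rw [e4]
    exact e3
  have hcl : ∀ g ∈ Subgroup.closure C, g ∈ Nz Y ∧ ∀ w ∈ W, w * g * w⁻¹ * g⁻¹ ∈ Y := by
    intro g hg
    induction hg using Subgroup.closure_induction with
    | mem x hx => exact ⟨hCN x hx, fun w hw => hWF hw x hx⟩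
    | one =>
      refine ⟨(Nz Y).one_mem, fun w _ => ?_⟩
      have e : w * 1 * w⁻¹ * 1⁻¹ = 1 := by group
      rw [e]
      exact Y.one_mem
    | mul a b _ _ ha hb =>
      refine ⟨(Nz Y).mul_mem ha.1 hb.1, fun w hw => ?_⟩
      have e : w * (a * b) * w⁻¹ * (a * b)⁻¹ = (w * a * w⁻¹ * a⁻¹) *
          (a * (w * b * w⁻¹ * b⁻¹) * a⁻¹) := by group
      rw [e]
      exact Y.mul_mem (ha.2 w hw) (ha.1 _ (hb.2 w hw)).1
    | inv a _ ha =>
      refine ⟨(Nz Y).inv_mem ha.1, fun w hw => ?_⟩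
      have e : w * a⁻¹ * w⁻¹ * a⁻¹⁻¹ = a⁻¹ * (w * a * w⁻¹ * a⁻¹)⁻¹ * a := by group
      rw [e]
      exact (ha.1 _ (Y.inv_mem (ha.2 w hw))).2
  rw [← h.perf, Subgroup.commutator_le]
  intro w hw w' hw'
  exact (hcl w' (h.le_closure hw')).2 w hw

/-- Step 2: both representatives normalise. -/
theorem Cov.both {W : Subgroup G} {C : Set G} (h : Cov W C) {V V' : Subgroup G} {y1 y2 : G}
    (h1 : y1 ∈ Nz V) (h2 : y2 ∈ Nz V') (hcov : ∀ x ∈ C, x * y1⁻¹ ∈ V ∨ x * y2⁻¹ ∈ V') :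
    W ≤ V ∨ W ≤ V' := by
  -- the cyclic extensions
  have ext : ∀ (V : Subgroup G) (y : G), y ∈ Nz V → ∃ E : Subgroup G,
      ∀ g, g ∈ E ↔ ∃ n : ℤ, g * y ^ n ∈ V := by
    intro V y hy
    have hyn : ∀ n : ℤ, ∀ v ∈ V, (y ^ n)⁻¹ * v * y ^ n ∈ V := fun n v hv =>
      ((Nz V).zpow_mem hy n v hv).2
    have hyn' : ∀ n : ℤ, ∀ v ∈ V, y ^ n * v * (y ^ n)⁻¹ ∈ V := fun n v hv =>
      ((Nz V).zpow_mem hy n v hv).1
    refine ⟨{ carrier := {g | ∃ n : ℤ, g * y ^ n ∈ V}, mul_mem' := ?_, one_mem' := ?_,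
              inv_mem' := ?_ }, fun g => Iff.rfl⟩
    · rintro a b ⟨n, hn⟩ ⟨m, hm⟩
      refine ⟨m + n, ?_⟩
      have e : a * b * y ^ (m + n) = (a * y ^ n) * ((y ^ n)⁻¹ * (b * y ^ m) * y ^ n) := by
        rw [zpow_add]
        group
      rw [e]
      exact V.mul_mem hn (hyn n _ hm)
    · exact ⟨0, by simp⟩
    · rintro a ⟨n, hn⟩
      refine ⟨-n, ?_⟩
      have e : a⁻¹ * y ^ (-n) = y ^ n * (a * y ^ n)⁻¹ * (y ^ n)⁻¹ := by
        rw [zpow_neg]
        group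
      rw [e]
      exact hyn' n _ (V.inv_mem hn)
  obtain ⟨E1, hE1⟩ := ext V y1 h1
  obtain ⟨E2, hE2⟩ := ext V' y2 h2
  by_cases hall : ∀ x ∈ C, x ∈ E2
  · right
    refine perfect_le_cyclic h.perf h2 ?_
    intro w hw
    rw [← hE2]
    exact (Subgroup.closure_le E2).mpr hall (h.le_closure hw)
  · left
    push Not at hall
    obtain ⟨x0, hx0, hx0E⟩ := hall
    obtain ⟨U, hU⟩ : ∃ U, U = Subgroup.closure (C \ (E2 : Set G)) := ⟨_, rfl⟩
    have hUE : U ≤ E1 := by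
      rw [hU, Subgroup.closure_le]
      rintro x ⟨hx, hx2⟩
      rcases hcov x hx with h3 | h3
      · exact (hE1 x).mpr ⟨-1, by rw [zpow_neg_one]; exact h3⟩
      · exact absurd ((hE2 x).mpr ⟨-1, by rw [zpow_neg_one]; exact h3⟩) hx2
    have hnorm : Subgroup.closure C ≤ Nz U := by
      rw [Subgroup.closure_le]
      intro z hz
      by_cases hz2 : z ∈ E2
      · have key : ∀ g, g ∈ E2 → ∀ u ∈ U, g * u * g⁻¹ ∈ U := by
          intro g hg
          have h3 : U ≤ U.comap (MulAut.conj g).toMonoidHom := by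
            conv_lhs => rw [hU]
            refine (Subgroup.closure_le _).mpr ?_
            rintro x ⟨hx, hx2⟩
            show g * x * g⁻¹ ∈ U
            rw [hU]
            refine Subgroup.subset_closure ⟨h.conj x hx g, ?_⟩
            intro h4
            apply hx2
            have h5 := E2.mul_mem (E2.mul_mem (E2.inv_mem hg) h4) hg
            have h6 : g⁻¹ * (g * x * g⁻¹) * g = x := by group
            rwa [h6] at h5
          exact h3
        intro u hu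
        refine ⟨key z hz2 u hu, ?_⟩
        have := key z⁻¹ (E2.inv_mem hz2) u hu
        rwa [inv_inv] at this
      · have hzU : z ∈ U := by
          rw [hU]
          exact Subgroup.subset_closure ⟨hz, hz2⟩
        intro u hu
        exact ⟨U.mul_mem (U.mul_mem hzU hu) (U.inv_mem hzU),
          U.mul_mem (U.mul_mem (U.inv_mem hzU) hu) hzU⟩
    have hx0U : x0 ∈ U := by
      rw [hU]
      exact Subgroup.subset_closure ⟨hx0, hx0E⟩
    have hCU : ∀ x ∈ C, x ∈ U := by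
      intro x hx
      obtain ⟨w, hw, rfl⟩ := h.trans x0 hx0 x hx
      exact (hnorm (h.le_closure hw) _ hx0U).1
    refine perfect_le_cyclic h.perf h1 ?_
    intro w hw
    rw [← hE1]
    exact hUE ((Subgroup.closure_le U).mpr hCU (h.le_closure hw))

/-- If `y1, y2` represent the two cosets of `Y`, `y2` normalises `Y`, then so does `y1`. -/
theorem Cov.norm_other {W : Subgroup G} {C : Set G} (h : Cov W C) {Y : Subgroup G} {y1 y2 : G}
    (hy1 : y1 ∈ C) (h2 : y2 ∈ Nz Y) (hne : y1 * y2⁻¹ ∉ Y)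
    (hcov : ∀ x ∈ C, x * y1⁻¹ ∈ Y ∨ x * y2⁻¹ ∈ Y) : y1 ∈ Nz Y := by
  obtain ⟨n, hn, hn1⟩ := h.ord y1 hy1
  refine mem_Nz_of_pow hn hn1 ?_
  intro v hv
  rcases hcov _ (h.conj y1 hy1 v) with h3 | h3
  · have e : y1 * v * y1⁻¹ = (v⁻¹ * (v * y1 * v⁻¹ * y1⁻¹))⁻¹ := by group
    rw [e]
    exact Y.inv_mem (Y.mul_mem (Y.inv_mem hv) h3)
  · exfalso
    apply hne
    have e : y1 * y2⁻¹ = v⁻¹ * (v * y1 * v⁻¹ * y2⁻¹) * (y2 * v * y2⁻¹) := by group
    rw [e]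
    exact Y.mul_mem (Y.mul_mem (Y.inv_mem hv) h3) (h2 v hv).1

/-- Step 3. -/
theorem Cov.contained {W : Subgroup G} {C : Set G} (h : Cov W C) {V V' : Subgroup G} {y1 y2 : G}
    (hy1 : y1 ∈ C) (h2 : y2 ∈ Nz V') (hle : V ≤ V')
    (hcov : ∀ x ∈ C, x * y1⁻¹ ∈ V ∨ x * y2⁻¹ ∈ V') : W ≤ V' := by
  have hcov' : ∀ x ∈ C, x * y1⁻¹ ∈ V' ∨ x * y2⁻¹ ∈ V' := fun x hx =>
    (hcov x hx).imp (fun h3 => hle h3) id
  by_cases hne : y1 * y2⁻¹ ∈ V'
  · refine h.one_coset (y := y2) ?_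
    intro x hx
    rcases hcov' x hx with h3 | h3
    · have e : x * y2⁻¹ = (x * y1⁻¹) * (y1 * y2⁻¹) := by group
      rw [e]
      exact V'.mul_mem h3 hne
    · exact h3
  · exact h.two_cosets (h.norm_other hy1 h2 hne hcov') h2 hcov'

/-- The dihedral step. -/
theorem dihedral_step {W Y Z : Subgroup G} (hW : ⁅W, W⁆ = W)
    (hY : ∀ x ∈ Y, ∀ y ∈ Y, x ∉ Z → y ∉ Z → x * y ∈ Z)
    (hZ : ∀ x ∈ Z, ∀ y ∈ Z, x ∉ Y → y ∉ Y → x * y ∈ Y) (hle : W ≤ Y ⊔ Z) : W ≤ Y := by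
  have inv_not : ∀ {K : Subgroup G} {x : G}, x ∉ K → x⁻¹ ∉ K := fun {K x} hx h1 =>
    hx (by simpa using K.inv_mem h1)
  by_cases hYZ : Y ≤ Z
  · have h1 : W ≤ Z := hle.trans (sup_le hYZ le_rfl)
    exact perfect_le hW (fun x hx y hy n1 n2 => hZ x (h1 hx) y (h1 hy) n1 n2)
  by_cases hZY : Z ≤ Y
  · exact hle.trans (sup_le le_rfl hZY)
  obtain ⟨s, hs, hsZ⟩ := SetLike.not_le_iff_exists.mp hYZ
  obtain ⟨t, ht, htY⟩ := SetLike.not_le_iff_exists.mp hZY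
  -- the intersection is normalised by both
  have hconj : ∀ {K L : Subgroup G} {x u : G}, (∀ x ∈ K, ∀ y ∈ K, x ∉ L → y ∉ L → x * y ∈ L) →
      x ∈ K → u ∈ K → u ∈ L → x * u * x⁻¹ ∈ L := by
    intro K L x u hKL hx hu huL
    by_cases hxL : x ∈ L
    · exact L.mul_mem (L.mul_mem hxL huL) (L.inv_mem hxL)
    · refine hKL _ (K.mul_mem hx hu) _ (K.inv_mem hx) ?_ (inv_not hxL)
      intro h1
      apply hxL
      have := L.mul_mem h1 (L.inv_mem huL)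
      rwa [mul_inv_cancel_right] at this
  have hNY : ∀ x ∈ Y, x ∈ Nz (Y ⊓ Z) := by
    intro x hx u hu
    refine ⟨⟨Y.mul_mem (Y.mul_mem hx hu.1) (Y.inv_mem hx), hconj hY hx hu.1 hu.2⟩,
      ⟨Y.mul_mem (Y.mul_mem (Y.inv_mem hx) hu.1) hx, ?_⟩⟩
    have := hconj hY (Y.inv_mem hx) hu.1 hu.2
    rwa [inv_inv] at this
  have hNZ : ∀ x ∈ Z, x ∈ Nz (Y ⊓ Z) := by
    intro x hx u hu
    refine ⟨⟨hconj hZ hx hu.2 hu.1, Z.mul_mem (Z.mul_mem hx hu.2) (Z.inv_mem hx)⟩,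
      ⟨?_, Z.mul_mem (Z.mul_mem (Z.inv_mem hx) hu.2) hx⟩⟩
    have := hconj hZ (Z.inv_mem hx) hu.2 hu.1
    rwa [inv_inv] at this
  obtain ⟨I, hI⟩ : ∃ I, I = Y ⊓ Z := ⟨_, rfl⟩
  rw [← hI] at hNY hNZ
  have hss : s * s ∈ I := by rw [hI]; exact ⟨Y.mul_mem hs hs, hY s hs s hs hsZ hsZ⟩
  have htt : t * t ∈ I := by rw [hI]; exact ⟨hZ t ht t ht htY htY, Z.mul_mem ht ht⟩
  have hrN : s * t ∈ Nz I := (Nz I).mul_mem (hNY s hs) (hNZ t ht)
  have hsN := hNY s hs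
  -- the cyclic extension
  obtain ⟨r, hr⟩ : ∃ r, r = s * t := ⟨_, rfl⟩
  rw [← hr] at hrN
  have hrn : ∀ n : ℤ, ∀ v ∈ I, (r ^ n)⁻¹ * v * r ^ n ∈ I := fun n v hv =>
    ((Nz I).zpow_mem hrN n v hv).2
  have hrn' : ∀ n : ℤ, ∀ v ∈ I, r ^ n * v * (r ^ n)⁻¹ ∈ I := fun n v hv =>
    ((Nz I).zpow_mem hrN n v hv).1
  let D : Subgroup G :=
    { carrier := {g | ∃ n : ℤ, g * r ^ n ∈ I}
      mul_mem' := by
        rintro a b ⟨n, hn⟩ ⟨m, hm⟩
        refine ⟨m + n, ?_⟩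
        have e : a * b * r ^ (m + n) = (a * r ^ n) * ((r ^ n)⁻¹ * (b * r ^ m) * r ^ n) := by
          rw [zpow_add]
          group
        rw [e]
        exact I.mul_mem hn (hrn n _ hm)
      one_mem' := ⟨0, by simp⟩
      inv_mem' := by
        rintro a ⟨n, hn⟩
        refine ⟨-n, ?_⟩
        have e : a⁻¹ * r ^ (-n) = r ^ n * (a * r ^ n)⁻¹ * (r ^ n)⁻¹ := by
          rw [zpow_neg]
          group
        rw [e]
        exact hrn' n _ (I.inv_mem hn) }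
  have hD : ∀ g, g ∈ D ↔ ∃ n : ℤ, g * r ^ n ∈ I := fun g => Iff.rfl
  have hID : I ≤ D := fun g hg => (hD g).mpr ⟨0, by simpa using hg⟩
  have hrD : r ∈ D := (hD r).mpr ⟨-1, by simp⟩
  have hDelt : ∀ g ∈ D, ∃ i ∈ I, ∃ n : ℤ, g = i * r ^ n := by
    intro g hg
    obtain ⟨n, hn⟩ := (hD g).mp hg
    exact ⟨_, hn, -n, by rw [zpow_neg]; group⟩
  have hconjD : ∀ x : G, x ∈ Nz I → x * r * x⁻¹ ∈ D → ∀ g ∈ D, x * g * x⁻¹ ∈ D := by
    intro x hx hxr g hg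
    obtain ⟨i, hi, n, rfl⟩ := hDelt g hg
    have e : x * (i * r ^ n) * x⁻¹ = (x * i * x⁻¹) * (x * r * x⁻¹) ^ n := by
      rw [conj_zpow]
      group
    rw [e]
    exact D.mul_mem (hID (hx i hi).1) (D.zpow_mem hxr n)
  have hsD : ∀ g ∈ D, s * g * s⁻¹ ∈ D := by
    refine hconjD s hsN ?_
    have e : s * r * s⁻¹ = (s * s) * (t * t) * r⁻¹ := by rw [hr]; group
    rw [e]
    exact D.mul_mem (D.mul_mem (hID hss) (hID htt)) (D.inv_mem hrD)
  have hsD' : ∀ g ∈ D, s⁻¹ * g * s ∈ D := by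
    intro g hg
    have h1 := hconjD s⁻¹ ((Nz I).inv_mem hsN) ?_ g hg
    · rwa [inv_inv] at h1
    · have e : s⁻¹ * r * s⁻¹⁻¹ = (t * t) * r⁻¹ * (s * s) := by rw [hr]; group
      rw [e]
      exact D.mul_mem (D.mul_mem (hID htt) (D.inv_mem hrD)) (hID hss)
  have hssD : s * s ∈ D := hID hss
  let E : Subgroup G :=
    { carrier := {g | g ∈ D ∨ g * s ∈ D}
      mul_mem' := by
        rintro a b (ha | ha) (hb | hb)
        · exact Or.inl (D.mul_mem ha hb)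
        · right
          rw [mul_assoc]
          exact D.mul_mem ha hb
        · right
          have e : a * b * s = (a * s) * (s⁻¹ * b * s) := by group
          rw [e]
          exact D.mul_mem ha (hsD' b hb)
        · left
          have e : a * b = (a * s) * (s⁻¹ * (b * s) * s) * (s * s)⁻¹ := by group
          rw [e]
          exact D.mul_mem (D.mul_mem ha (hsD' _ hb)) (D.inv_mem hssD)
      one_mem' := Or.inl D.one_mem
      inv_mem' := by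
        rintro a (ha | ha)
        · exact Or.inl (D.inv_mem ha)
        · right
          have e : a⁻¹ * s = (s * (a * s)⁻¹ * s⁻¹) * (s * s) := by group
          rw [e]
          exact D.mul_mem (hsD _ (D.inv_mem ha)) hssD }
  have hE : ∀ g, g ∈ E ↔ (g ∈ D ∨ g * s ∈ D) := fun g => Iff.rfl
  have hYE : Y ≤ E := by
    intro y hy
    rw [hE]
    by_cases hyZ : y ∈ Z
    · exact Or.inl (hID (by rw [hI]; exact ⟨hy, hyZ⟩))
    · exact Or.inr (hID (by rw [hI]; exact ⟨Y.mul_mem hy hs, hY y hy s hs hyZ hsZ⟩))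
  have hZE : Z ≤ E := by
    intro z hz
    rw [hE]
    by_cases hzY : z ∈ Y
    · exact Or.inl (hID (by rw [hI]; exact ⟨hzY, hz⟩))
    · right
      have h1 : z * t ∈ I := by rw [hI]; exact ⟨hZ z hz t ht hzY htY, Z.mul_mem hz ht⟩
      have e : z * s = (z * t) * r⁻¹ * (s * s) := by rw [hr]; group
      rw [e]
      exact D.mul_mem (D.mul_mem (hID h1) (D.inv_mem hrD)) hssD
  have hWE : W ≤ E := hle.trans (sup_le hYE hZE)
  have hWD : W ≤ D := by
    refine perfect_le hW ?_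
    intro x hx y hy n1 n2
    have h1 := ((hE x).mp (hWE hx)).resolve_left n1
    have h2 := ((hE y).mp (hWE hy)).resolve_left n2
    have e : x * y = (x * s) * (s⁻¹ * (y * s) * s) * (s * s)⁻¹ := by group
    rw [e]
    exact D.mul_mem (D.mul_mem h1 (hsD' _ h2)) (D.inv_mem hssD)
  have h3 : W ≤ I := perfect_le_cyclic hW hrN (fun w hw => (hD w).mp (hWD hw))
  rw [hI] at h3
  exact h3.trans inf_le_left

/-- The commensurability step: if `Y` meets `y⁻¹Yy` with index two in `Y` and `y` has finite order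
then the index in `y⁻¹Yy` is two as well. Formulated with the action of a group element. -/
theorem comm_step {Y : Subgroup G} {φ : MulAut G} {n : ℕ} (hn : 0 < n) (hφ : φ ^ n = 1)
    (h2 : Y.relIndex (φ • Y) = 2) : (φ • Y).relIndex Y = 2 := by
  classical
  -- the intersection of all conjugates
  have hD : ∀ k : ℕ, ∃ E : Subgroup G, E = ⨅ i ∈ Finset.range (k + 1), φ ^ i • Y := fun k =>
    ⟨_, rfl⟩
  have hrel : ∀ k : ℕ, (⨅ i ∈ Finset.range (k + 1), φ ^ i • Y).relIndex (φ ^ k • Y) ≠ 0 := by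
    intro k
    induction k with
    | zero => simp
    | succ k ih =>
      have h3 : (φ ^ k • Y).relIndex (φ ^ (k + 1) • Y) ≠ 0 := by
        rw [pow_succ, mul_smul, Subgroup.relIndex_pointwise_smul, h2]
        norm_num
      have h4 := Subgroup.relIndex_ne_zero_trans ih h3
      have h5 : (⨅ i ∈ Finset.range (k + 1 + 1), φ ^ i • Y) =
          (⨅ i ∈ Finset.range (k + 1), φ ^ i • Y) ⊓ (φ ^ (k + 1) • Y) := by
        rw [Finset.range_add_one, Finset.iInf_insert, inf_comm]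
      rw [h5, Subgroup.inf_relIndex_right]
      exact h4
  obtain ⟨D, hDdef⟩ : ∃ D, D = ⨅ i ∈ Finset.range n, φ ^ i • Y := ⟨_, rfl⟩
  have hDrel : D.relIndex (φ ^ (n - 1) • Y) ≠ 0 := by
    have := hrel (n - 1)
    rw [Nat.sub_add_cancel hn] at this
    rw [hDdef]
    exact this
  have hle : ∀ i, D ≤ φ ^ i • Y := by
    intro i
    have h3 : φ ^ i = φ ^ (i % n) := by
      conv_lhs => rw [← Nat.div_add_mod i n]
      rw [pow_add, pow_mul, hφ, one_pow, one_mul]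
    rw [h3, hDdef]
    exact iInf₂_le (i % n) (Finset.mem_range.mpr (Nat.mod_lt _ hn))
  have hDφ : φ • D = D := by
    have hle1 : φ • D ≤ D := by
      conv_rhs => rw [hDdef]
      refine le_iInf₂ ?_
      intro i _
      have h3 : φ ^ i = φ * φ ^ (i + (n - 1)) := by
        rw [← pow_succ', show i + (n - 1) + 1 = i + n by omega, pow_add, hφ, mul_one]
      rw [h3, mul_smul]
      exact Subgroup.pointwise_smul_le_pointwise_smul_iff.mpr (hle _)
    refine le_antisymm hle1 ?_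
    have h4 : ∀ k : ℕ, φ ^ k • D ≤ D := by
      intro k
      induction k with
      | zero => simp
      | succ k ih =>
        rw [pow_succ', mul_smul]
        exact (Subgroup.pointwise_smul_le_pointwise_smul_iff.mpr ih).trans hle1
    have h5 := h4 (n - 1)
    have h6 : φ • (φ ^ (n - 1) • D) = D := by
      rw [← mul_smul, ← pow_succ', Nat.sub_add_cancel hn, hφ, one_smul]
    calc D = φ • (φ ^ (n - 1) • D) := h6.symm
      _ ≤ φ • D := Subgroup.pointwise_smul_le_pointwise_smul_iff.mpr h5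
  have hDφk : ∀ k : ℕ, φ ^ k • D = D := by
    intro k
    induction k with
    | zero => simp
    | succ k ih => rw [pow_succ, mul_smul, hDφ, ih]
  have hDY : D.relIndex Y ≠ 0 := by
    have h3 : (φ ^ (n - 1) • D).relIndex (φ ^ (n - 1) • Y) = D.relIndex Y :=
      Subgroup.relIndex_pointwise_smul _ _ _
    rw [hDφk] at h3
    rw [← h3]
    exact hDrel
  have hDY2 : D.relIndex (φ • Y) = D.relIndex Y := by
    have h3 : (φ • D).relIndex (φ • Y) = D.relIndex Y := Subgroup.relIndex_pointwise_smul _ _ _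
    rwa [hDφ] at h3
  have hD0 : D ≤ Y := by simpa using hle 0
  have hD1 : D ≤ φ • Y := by simpa using hle 1
  have e1 := Subgroup.relIndex_mul_relIndex D (Y ⊓ φ • Y) Y (le_inf hD0 hD1) inf_le_left
  have e2 := Subgroup.relIndex_mul_relIndex D (Y ⊓ φ • Y) (φ • Y) (le_inf hD0 hD1) inf_le_right
  rw [Subgroup.inf_relIndex_right, h2, hDY2] at e2
  rw [Subgroup.inf_relIndex_left] at e1
  have h0 : D.relIndex (Y ⊓ φ • Y) ≠ 0 := by
    intro h3
    rw [h3, zero_mul] at e1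
    exact hDY e1.symm
  have e3 : D.relIndex (Y ⊓ φ • Y) * (φ • Y).relIndex Y = D.relIndex (Y ⊓ φ • Y) * 2 := by
    rw [e1, e2]
  exact Nat.eq_of_mul_eq_mul_left (Nat.pos_of_ne_zero h0) e3

/-- Relative index two from the product property. -/
theorem relIndex_two {H K : Subgroup G} {a : G} (ha : a ∈ K) (haH : a ∉ H)
    (h : ∀ x ∈ K, ∀ y ∈ K, x ∉ H → y ∉ H → x * y ∈ H) : H.relIndex K = 2 := by
  rw [Subgroup.relIndex_eq_two_iff]
  refine ⟨a, ha, ?_⟩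
  intro b hb
  by_cases hbH : b ∈ H
  · refine Or.inr ⟨hbH, ?_⟩
    intro h1
    apply haH
    have := H.mul_mem (H.inv_mem hbH) h1
    rwa [inv_mul_cancel_left] at this
  · exact Or.inl ⟨h b hb a ha hbH haH, hbH⟩

/-- The product property from relative index two. -/
theorem mul_mem_of_relIndex_two {H K : Subgroup G} (h2 : H.relIndex K = 2) :
    ∀ x ∈ K, ∀ y ∈ K, x ∉ H → y ∉ H → x * y ∈ H := by
  obtain ⟨a, ha, h⟩ := Subgroup.relIndex_eq_two_iff.mp h2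
  intro x hx y hy n1 n2
  have h1 : x * a ∈ H := by
    rcases h x hx with h3 | h3
    · exact h3.1
    · exact absurd h3.1 n1
  have h2 : y⁻¹ ∉ H := fun h3 => n2 (by simpa using H.inv_mem h3)
  have h3 : y⁻¹ * a ∈ H := by
    rcases h y⁻¹ (K.inv_mem hy) with h3 | h3
    · exact h3.1
    · exact absurd h3.1 h2
  have h4 := H.mul_mem h1 (H.inv_mem h3)
  have h5 : x * a * (y⁻¹ * a)⁻¹ = x * y := by group
  rwa [h5] at h4

/-- A maximal subgroup not containing a finitely generated subgroup. -/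
theorem exists_maximal {W V : Subgroup G} (hfg : W.FG) (hV : ¬ W ≤ V) :
    ∃ Y : Subgroup G, V ≤ Y ∧ ¬ W ≤ Y ∧ ∀ Z : Subgroup G, Y ≤ Z → ¬ Z ≤ Y → W ≤ Z := by
  obtain ⟨S, hS⟩ := hfg
  obtain ⟨Y, hVY, hYm, hmax⟩ := zorn_le_nonempty₀ {Y : Subgroup G | ¬ W ≤ Y} (by
    intro c hc hchain y hy
    refine ⟨sSup c, ?_, fun z hz => le_sSup hz⟩
    intro hle
    have hdir : DirectedOn (· ≤ ·) c := hchain.directedOn
    have key : ∀ S' : Finset G, (∀ s ∈ S', s ∈ sSup c) → ∃ K ∈ c, ∀ s ∈ S', s ∈ K := by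
      classical
      intro S'
      induction S' using Finset.induction_on with
      | empty => exact fun _ => ⟨y, hy, fun s hs => absurd hs (Finset.notMem_empty s)⟩
      | insert a S' _ ih =>
        intro hall
        obtain ⟨K, hK, hKS⟩ := ih (fun s hs => hall s (Finset.mem_insert_of_mem hs))
        obtain ⟨K', hK', haK'⟩ := (Subgroup.mem_sSup_of_directedOn ⟨y, hy⟩ hdir).mp
          (hall a (Finset.mem_insert_self a S'))
        obtain ⟨K'', hK'', l1, l2⟩ := hdir K hK K' hK'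
        refine ⟨K'', hK'', ?_⟩
        intro s hs
        rcases Finset.mem_insert.mp hs with rfl | hs'
        · exact l2 haK'
        · exact l1 (hKS s hs')
    obtain ⟨K, hK, hKS⟩ := key S (fun s hs => hle (hS ▸ Subgroup.subset_closure hs))
    apply hc hK
    rw [← hS, Subgroup.closure_le]
    exact hKS) V hV
  refine ⟨Y, hVY, hYm, ?_⟩
  intro Z hYZ hnZ
  by_contra hW
  exact hnZ (hmax hW hYZ)

/-- Step 4: two cosets of the same subgroup. -/
theorem Cov.same {W : Subgroup G} {C : Set G} (h : Cov W C) (hfg : W.FG) {V : Subgroup G}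
    {y1 y2 : G} (hy1 : y1 ∈ C) (hy2 : y2 ∈ C)
    (hcov : ∀ x ∈ C, x * y1⁻¹ ∈ V ∨ x * y2⁻¹ ∈ V) : W ≤ V := by
  by_contra hW
  obtain ⟨Y, hVY, hYW, hmax⟩ := exists_maximal hfg hW
  have hcov' : ∀ x ∈ C, x * y1⁻¹ ∈ Y ∨ x * y2⁻¹ ∈ Y := fun x hx =>
    (hcov x hx).imp (fun h1 => hVY h1) (fun h1 => hVY h1)
  have hcov'' : ∀ x ∈ C, x * y2⁻¹ ∈ Y ∨ x * y1⁻¹ ∈ Y := fun x hx => (hcov' x hx).symm
  by_cases hne : y1 * y2⁻¹ ∈ Y
  · apply hYW
    refine h.one_coset (y := y2) ?_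
    intro x hx
    rcases hcov' x hx with h3 | h3
    · have e : x * y2⁻¹ = (x * y1⁻¹) * (y1 * y2⁻¹) := by group
      rw [e]
      exact Y.mul_mem h3 hne
    · exact h3
  have hne2 : y2 * y1⁻¹ ∉ Y := by
    intro h1
    apply hne
    have e : y1 * y2⁻¹ = (y2 * y1⁻¹)⁻¹ := by group
    rw [e]
    exact Y.inv_mem h1
  obtain ⟨n, hn, hn1⟩ := h.ord y1 hy1
  by_cases hst : ∀ v ∈ Y, y1 * v * y1⁻¹ ∈ Y
  · have h1 := mem_Nz_of_pow hn hn1 hst
    exact hYW (h.two_cosets h1 (h.norm_other hy2 h1 hne2 hcov'') hcov')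
  push Not at hst
  obtain ⟨v0, hv0, hv01⟩ := hst
  -- translation of the two cosets
  have tr1 : ∀ v ∈ Y, y1 * v * y1⁻¹ ∉ Y → y1 * v * y2⁻¹ ∈ Y := by
    intro v hv hv1
    rcases hcov' _ (h.conj y1 hy1 v⁻¹) with h3 | h3
    · exfalso
      apply hv1
      have e : y1 * v * y1⁻¹ = v * (v⁻¹ * y1 * v⁻¹⁻¹ * y1⁻¹) := by group
      rw [e]
      exact Y.mul_mem hv h3
    · have e : y1 * v * y2⁻¹ = v * (v⁻¹ * y1 * v⁻¹⁻¹ * y2⁻¹) := by group
      rw [e]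
      exact Y.mul_mem hv h3
  have tr2 : ∀ v ∈ Y, y1 * v * y1⁻¹ ∉ Y → y2 * v * y1⁻¹ ∈ Y := by
    intro v hv hv1
    rcases hcov' _ (h.conj y2 hy2 v⁻¹) with h3 | h3
    · have e : y2 * v * y1⁻¹ = v * (v⁻¹ * y2 * v⁻¹⁻¹ * y1⁻¹) := by group
      rw [e]
      exact Y.mul_mem hv h3
    · exfalso
      -- both cosets would be moved to the second one
      have h4 : y2 * v * y2⁻¹ ∈ Y := by
        have e : y2 * v * y2⁻¹ = v * (v⁻¹ * y2 * v⁻¹⁻¹ * y2⁻¹) := by group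
        rw [e]
        exact Y.mul_mem hv h3
      have h5 := tr1 v hv hv1
      apply hne
      have e : y1 * y2⁻¹ = (y1 * v * y2⁻¹) * (y2 * v * y2⁻¹)⁻¹ := by group
      rw [e]
      exact Y.mul_mem h5 (Y.inv_mem h4)
  obtain ⟨φ, hφ⟩ : ∃ φ : MulAut G, φ = MulAut.conj y1 := ⟨_, rfl⟩
  have hmem : ∀ u, u ∈ φ • Y ↔ y1⁻¹ * u * y1 ∈ Y := by
    intro u
    rw [Subgroup.mem_pointwise_smul_iff_inv_smul_mem, hφ]
    have e : (MulAut.conj y1)⁻¹ • u = y1⁻¹ * u * y1 := by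
      rw [← map_inv]
      show y1⁻¹ * u * y1⁻¹⁻¹ = _
      rw [inv_inv]
    rw [e]
  have hφn : φ ^ n = 1 := by rw [hφ, ← map_pow, hn1, map_one]
  have hidx : Y.relIndex (φ • Y) = 2 := by
    refine relIndex_two (a := y1 * v0 * y1⁻¹) ?_ hv01 ?_
    · rw [hmem]
      have e : y1⁻¹ * (y1 * v0 * y1⁻¹) * y1 = v0 := by group
      rw [e]
      exact hv0
    · intro x hx y hy n1 n2
      rw [hmem] at hx hy
      have ex : y1 * (y1⁻¹ * x * y1) * y1⁻¹ = x := by group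
      have ey : y1 * (y1⁻¹ * y * y1) * y1⁻¹ = y := by group
      have h3 := tr1 _ hx (by rw [ex]; exact n1)
      have h4 := tr2 _ hy (by rw [ey]; exact n2)
      have e : x * y = (y1 * (y1⁻¹ * x * y1) * y2⁻¹) * (y2 * (y1⁻¹ * y * y1) * y1⁻¹) := by group
      rw [e]
      exact Y.mul_mem h3 h4
  have hidx2 := comm_step hn hφn hidx
  have hle : W ≤ Y ⊔ φ • Y := by
    refine hmax _ le_sup_left ?_
    intro h3
    apply hv01
    refine h3 (Subgroup.mem_sup_right ?_)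
    rw [hmem]
    have e : y1⁻¹ * (y1 * v0 * y1⁻¹) * y1 = v0 := by group
    rw [e]
    exact hv0
  exact hYW (dihedral_step h.perf (mul_mem_of_relIndex_two hidx2)
    (mul_mem_of_relIndex_two hidx) hle)

/-- The two-cover lemma. -/
theorem two_cover {W : Subgroup G} {C T1 T2 : Set G} (h : Cov W C) (hfg : W.FG)
    (h1 : T1 ⊆ C) (h2 : T2 ⊆ C) (hcov : C ⊆ T1 ∪ T2) : W ≤ Dif T1 ∨ W ≤ Dif T2 := by
  obtain ⟨x0, hx0, -⟩ := h.two
  rcases T1.eq_empty_or_nonempty with he1 | ⟨y1, hy1⟩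
  · right
    have hC : C ⊆ T2 := by rw [he1, Set.empty_union] at hcov; exact hcov
    exact h.one_coset (y := x0) (fun x hx => mem_Dif (hC hx) (hC hx0))
  rcases T2.eq_empty_or_nonempty with he2 | ⟨y2, hy2⟩
  · left
    have hC : C ⊆ T1 := by rw [he2, Set.union_empty] at hcov; exact hcov
    exact h.one_coset (y := x0) (fun x hx => mem_Dif (hC hx) (hC hx0))
  have c1 : ∀ x ∈ C, x * y1⁻¹ ∈ Dif T1 ∨ x * y2⁻¹ ∈ Dif T2 := by
    intro x hx
    rcases hcov hx with h3 | h3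
    · exact Or.inl (mem_Dif h3 hy1)
    · exact Or.inr (mem_Dif h3 hy2)
  have c2 : ∀ x ∈ C, x * y2⁻¹ ∈ Dif T2 ∨ x * y1⁻¹ ∈ Dif T1 := fun x hx => (c1 x hx).symm
  obtain ⟨n, hn, hn1⟩ := h.ord y1 (h1 hy1)
  obtain ⟨m, hm, hm1⟩ := h.ord y2 (h2 hy2)
  rcases cover_step h.conj h1 hy1 c1 with a1 | a1 <;>
    rcases cover_step h.conj h2 hy2 c2 with a2 | a2
  · exact h.both (mem_Nz_of_pow hn hn1 a1) (mem_Nz_of_pow hm hm1 a2) c1
  · exact Or.inl (h.contained (h2 hy2) (mem_Nz_of_pow hn hn1 a1) a2 c2)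
  · exact Or.inr (h.contained (h1 hy1) (mem_Nz_of_pow hm hm1 a2) a1 c1)
  · have e : Dif T1 = Dif T2 := le_antisymm a1 a2
    left
    refine h.same hfg (h1 hy1) (h2 hy2) ?_
    intro x hx
    rw [← e] at c1
    exact c1 x hx

end

end H78.CT
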