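import Pool.Agent.H36.CH2.Base

/-! In a minimal configuration the centre of `A` is finite (conditional on the statement `T8`
on zero squares). -/

namespace H78.CT

open Subgroup H36.CH Pointwise

/-- Zero squares with a central horizontal side have an infinite centraliser. -/
def T8 {G : Type} [Group G] (A A0 B0 : Subgroup G) : Prop :=
  ∀ a ∈ A, ∀ d ∈ B0, a ≠ 1 → d ≠ 1 → (∀ x ∈ A, x * a = a * x) →
    (∃ a' ∈ A0, ∃ b' ∈ B0, d * a = a' * b') → {x | x ∈ A ∧ x * d = d * x}.Infinite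

/-- `g` lies in the product `B0 A`. -/
def InP {G : Type} [Group G] (B0 A : Subgroup G) (g : G) : Prop := ∃ b ∈ B0, ∃ a ∈ A, g = b * a

/-- The walls `A` and `kA` are good. -/
def Good {G : Type} [Group G] (A0 : Subgroup G) (k : G) : Prop :=
  ∀ x ∈ A0, k * x * k⁻¹ ∈ A0 → x = 1

section

variable {G : Type} [Group G] {A A0 P B B0 Q : Subgroup G}

theorem InP.mul_right {g a : G} (h : InP B0 A g) (ha : a ∈ A) : InP B0 A (g * a) := by
  obtain ⟨b, hb, c, hc, rfl⟩ := h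
  exact ⟨b, hb, c * a, A.mul_mem hc ha, by group⟩

theorem InP.mul_left {g b : G} (h : InP B0 A g) (hb : b ∈ B0) : InP B0 A (b * g) := by
  obtain ⟨c, hc, a, ha, rfl⟩ := h
  exact ⟨b * c, B0.mul_mem hb hc, a, ha, by group⟩

theorem InP.of_mem {g : G} (hg : g ∈ A) : InP B0 A g := ⟨1, B0.one_mem, g, hg, by group⟩

/-- Translation by an element of `B` outside of `B0` exchanges the two classes. -/
theorem inP_shift (h : Cfg A A0 P B B0 Q) {b1 g : G} (hb1 : b1 ∈ B) (hb10 : b1 ∉ B0)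
    (hg : ¬ InP B0 A g) : InP B0 A (b1 * g) := by
  obtain ⟨b, hb, a, ha, rfl⟩ := h.hyp.symm.fac g
  have hb0 : b ∉ B0 := fun hb0 => hg ⟨b, hb0, a, ha, rfl⟩
  exact ⟨b1 * b, h.hyp.sb.idx _ hb1 _ hb hb10 hb0, a, ha, by group⟩

theorem exists_out (h : Cfg A A0 P B B0 Q) {g : G} (hg : ¬ InP B0 A g) : ∃ b ∈ B, b ∉ B0 := by
  obtain ⟨b, hb, a, ha, rfl⟩ := h.hyp.symm.fac g
  exact ⟨b, hb, fun hb0 => hg ⟨b, hb0, a, ha, rfl⟩⟩

/-- Uniqueness of the decomposition. -/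
theorem dec_unique (h : Cfg A A0 P B B0 Q) {a a' b b' : G} (ha : a ∈ A) (ha' : a' ∈ A)
    (hb : b ∈ B) (hb' : b' ∈ B) (he : a * b = a' * b') : a = a' ∧ b = b' := by
  have h1 : a'⁻¹ * a = b' * b⁻¹ := by
    have : a'⁻¹ * (a * b) * b⁻¹ = a'⁻¹ * (a' * b') * b⁻¹ := by rw [he]
    have h2 : a'⁻¹ * (a * b) * b⁻¹ = a'⁻¹ * a := by group
    have h3 : a'⁻¹ * (a' * b') * b⁻¹ = b' * b⁻¹ := by group
    rw [h2, h3] at this
    exact this
  have h4 : a'⁻¹ * a = 1 := by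
    refine h.exact _ (A.mul_mem (A.inv_mem ha') ha) ?_
    rw [h1]
    exact B.mul_mem hb' (B.inv_mem hb)
  have h5 : a = a' := (inv_mul_eq_one.mp h4).symm
  subst h5
  exact ⟨rfl, mul_left_cancel he⟩

theorem Good.congr {k a b : G} (hk : Good A0 k) 
    (ha' : ∀ x ∈ A0, a⁻¹ * x * a ∈ A0) (hb : ∀ x ∈ A0, b * x * b⁻¹ ∈ A0) :
    Good A0 (a * k * b) := by
  intro x hx hx2
  have h1 : k * (b * x * b⁻¹) * k⁻¹ ∈ A0 := by
    have := ha' _ hx2
    have h2 : a⁻¹ * (a * k * b * x * (a * k * b)⁻¹) * a = k * (b * x * b⁻¹) * k⁻¹ := by group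
    rwa [h2] at this
  have h3 := hk _ (hb x hx) h1
  have h4 : b * x * b⁻¹ = 1 := h3
  have h5 : x = b⁻¹ * (b * x * b⁻¹) * b := by group
  rw [h5, h4]
  group

theorem conjA (h : Cfg A A0 P B B0 Q) {a : G} (ha : a ∈ A) : ∀ x ∈ A0, a * x * a⁻¹ ∈ A0 :=
  fun _ hx => h.hyp.sa.conj0 ha hx

theorem conjA' (h : Cfg A A0 P B B0 Q) {a : G} (ha : a ∈ A) : ∀ x ∈ A0, a⁻¹ * x * a ∈ A0 := by
  intro x hx
  have := h.hyp.sa.conj0 (A.inv_mem ha) hx
  rwa [inv_inv] at this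

/-- An infinite subset of `A` closed under quotients contains a nontrivial element of `A0`. -/
theorem exists_cent0 (h : Cfg A A0 P B B0 Q) {d : G}
    (hinf : {x | x ∈ A ∧ x * d = d * x}.Infinite) : ∃ x ∈ A0, x ≠ 1 ∧ x * d = d * x := by
  by_contra hcon
  push Not at hcon
  have hsub : ({x | x ∈ A ∧ x * d = d * x} ∩ {x | x ∈ A0}).Finite := by
    refine (Set.finite_singleton (1 : G)).subset ?_
    rintro x ⟨⟨-, hx2⟩, hx3⟩
    by_contra hx1
    exact hcon x hx3 hx1 hx2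
  have hinf2 : ({x | x ∈ A ∧ x * d = d * x} \ {x | x ∈ A0}).Infinite := by
    intro hfin
    apply hinf
    have := hsub.union hfin
    rwa [Set.inter_union_sdiff] at this
  obtain ⟨x, ⟨⟨hx, hxd⟩, hx0⟩, y, ⟨⟨hy, hyd⟩, hy0⟩, hxy⟩ := hinf2.nontrivial
  have hyi : y⁻¹ ∉ A0 := fun h2 => hy0 (by simpa using A0.inv_mem h2)
  have h1 : x * y⁻¹ ∈ A0 := h.hyp.sa.idx _ hx _ (A.inv_mem hy) hx0 hyi
  refine hcon _ h1 ?_ ?_
  · intro h2
    exact hxy (mul_inv_eq_one.mp h2)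
  · have c1 : Commute x d := hxd
    have c2 : Commute y d := hyd
    exact (c1.mul_left c2.inv_left).eq

theorem inP_iff (h : Cfg A A0 P B B0 Q) {a b : G} (ha : a ∈ A) (hb : b ∈ B) :
    InP A0 B (a * b) ↔ a ∈ A0 := by
  constructor
  · rintro ⟨a', ha', b', hb', he⟩
    obtain ⟨h1, -⟩ := dec_unique h ha (h.hyp.sa.le0 ha') hb hb' he
    rw [h1]
    exact ha'
  · intro h1
    exact ⟨a, h1, b, hb, rfl⟩

/-- Translation by an element of `B` preserves the relation of being on the same side. -/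
theorem shift_iff (h : Cfg A A0 P B B0 Q) {b x y : G} (hb : b ∈ B) :
    (InP B0 A (b * x) ↔ InP B0 A (b * y)) ↔ (InP B0 A x ↔ InP B0 A y) := by
  have key : ∀ z, b ∉ B0 → (InP B0 A (b * z) ↔ ¬ InP B0 A z) := by
    intro z hb0
    refine ⟨?_, inP_shift h hb hb0⟩
    obtain ⟨c, hc, a, ha, rfl⟩ := h.hyp.symm.fac z
    intro h1 h2
    have h3 : c ∈ B0 := (inP_iff h.symm hc ha).mp h2
    have h4 : b * c ∈ B0 := by
      rw [← mul_assoc] at h1
      exact (inP_iff h.symm (B.mul_mem hb hc) ha).mp h1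
    apply hb0
    have h5 := B0.mul_mem h4 (B0.inv_mem h3)
    rwa [mul_inv_cancel_right] at h5
  have key0 : ∀ z, b ∈ B0 → (InP B0 A (b * z) ↔ InP B0 A z) := by
    intro z hb0
    refine ⟨fun h1 => ?_, fun h1 => h1.mul_left hb0⟩
    have h2 := h1.mul_left (B0.inv_mem hb0)
    rwa [inv_mul_cancel_left] at h2
  by_cases hb0 : b ∈ B0
  · rw [key0 x hb0, key0 y hb0]
  · rw [key x hb0, key y hb0, not_iff_not]

theorem exists_ne (h : Cfg A A0 P B B0 Q) : ∃ x ∈ A0, x ≠ 1 := by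
  obtain ⟨x, hx, hx1⟩ := h.infP.exists_notMem_finite (Set.finite_singleton (1 : G))
  exact ⟨x, h.hyp.sa.le_A0 hx, hx1⟩

/-- (P3): at most two points of an orbit of the centre do not separate two good walls. -/
theorem P3 (h : Cfg A A0 P B B0 Q) (h8 : T8 A A0 B0) {k w : G} (hk : Good A0 k)
    {u : Fin 3 → G} (hu : ∀ i, u i ∈ A) (hc : ∀ i, ∀ x ∈ A, x * u i = u i * x)
    (hinj : Function.Injective u)
    (hn : ∀ i, (InP B0 A (w⁻¹ * (u i)⁻¹) ↔ InP B0 A (w⁻¹ * (u i)⁻¹ * k))) : False := by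
  -- two of the three points lie on the same side of the second wall
  have hpig : ∃ i j, i ≠ j ∧ (InP A0 B (k⁻¹ * u i * w) ↔ InP A0 B (k⁻¹ * u j * w)) := by
    by_contra hcon
    push Not at hcon
    have h01 := hcon 0 1 (by decide)
    have h12 := hcon 1 2 (by decide)
    have h02 := hcon 0 2 (by decide)
    by_cases c0 : InP A0 B (k⁻¹ * u 0 * w) <;> by_cases c1 : InP A0 B (k⁻¹ * u 1 * w) <;>
      by_cases c2 : InP A0 B (k⁻¹ * u 2 * w) <;> tauto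
  obtain ⟨i, j, hij, hside⟩ := hpig
  obtain ⟨a, ha, b, hb, hw⟩ := h.hyp.fac w
  -- the base change
  obtain ⟨v, hv⟩ : ∃ v, v = (u i)⁻¹ * u j := ⟨_, rfl⟩
  have hvA : v ∈ A := by rw [hv]; exact A.mul_mem (A.inv_mem (hu i)) (hu j)
  have hv1 : v ≠ 1 := by
    intro h1
    rw [hv] at h1
    exact hij (hinj (inv_mul_eq_one.mp h1))
  have hvc : ∀ x ∈ A, x * v = v * x := by
    intro x hx
    have c1 : Commute x (u i) := hc i x hx
    have c2 : Commute x (u j) := hc j x hx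
    rw [hv]
    exact (c1.inv_right.mul_right c2).eq
  have huj : u j = u i * v := by rw [hv]; group
  have hva : a * v = v * a := hvc a ha
  obtain ⟨k', hk'⟩ : ∃ k', k' = (u i * a)⁻¹ * k := ⟨_, rfl⟩
  have hk'g : Good A0 k' := by
    have h1 := hk.congr (b := 1)
      (conjA' h (A.inv_mem (A.mul_mem (hu i) ha))) (fun x hx => by simpa using hx)
    rw [mul_one] at h1
    rw [hk']
    exact h1
  have hkk : k = u i * a * k' := by rw [hk']; group
  have hbi : b⁻¹ ∈ B := B.inv_mem hb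
  have hni : InP B0 A k' := by
    have h1 := hn i
    have h2 : w⁻¹ * (u i)⁻¹ = b⁻¹ * (a⁻¹ * (u i)⁻¹) := by rw [hw]; group
    have h3 : b⁻¹ * (a⁻¹ * (u i)⁻¹) * k = b⁻¹ * k' := by rw [hk']; group
    rw [h2, h3, shift_iff h hbi] at h1
    exact h1.mp (InP.of_mem (A.mul_mem (A.inv_mem ha) (A.inv_mem (hu i))))
  have hnj : InP B0 A (v⁻¹ * k') := by
    have h1 := hn j
    have h2 : w⁻¹ * (u j)⁻¹ = b⁻¹ * (a⁻¹ * (u j)⁻¹) := by rw [hw]; group
    have h3 : b⁻¹ * (a⁻¹ * (u j)⁻¹) * k = b⁻¹ * (v⁻¹ * k') := by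
      rw [hkk, huj]
      have h4 : b⁻¹ * (a⁻¹ * (u i * v)⁻¹) * (u i * a * k') = b⁻¹ * (a⁻¹ * (v⁻¹ * a) * k') := by
        group
      have h5 : v⁻¹ * a = a * v⁻¹ := (Commute.inv_right (show Commute a v from hva)).eq.symm
      rw [h4, h5]
      group
    rw [h2, h3, shift_iff h hbi] at h1
    exact h1.mp (InP.of_mem (A.mul_mem (A.inv_mem ha) (A.inv_mem (hu j))))
  obtain ⟨b0, hb0, a0, ha0, hk0⟩ := hni
  obtain ⟨b2, hb2, a2, ha2, hk2⟩ := hnj
  have hdv : b0⁻¹ * v = (a0 * a2⁻¹) * b2⁻¹ := by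
    have h1 : v⁻¹ * b0 = b2 * (a2 * a0⁻¹) := by
      have h2 : v⁻¹ * b0 = v⁻¹ * k' * a0⁻¹ := by rw [hk0]; group
      rw [h2, hk2]
      group
    have h3 : b0⁻¹ * v = (v⁻¹ * b0)⁻¹ := by group
    rw [h3, h1]
    group
  have haa : a0 * a2⁻¹ ∈ A := A.mul_mem ha0 (A.inv_mem ha2)
  have hα : a0 * a2⁻¹ ∈ A0 := by
    have h1 : k⁻¹ * u i * w = a0⁻¹ * (b0⁻¹ * b) := by
      rw [hkk, hk0, hw]
      group
    have h2 : k⁻¹ * u j * w = (a0⁻¹ * (a0 * a2⁻¹)) * (b2⁻¹ * b) := by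
      have h4 : k⁻¹ * u j * w = a0⁻¹ * b0⁻¹ * a⁻¹ * (v * a) * b := by
        rw [hkk, hk0, huj, hw]
        group
      rw [h4, ← hva]
      have h5 : a0⁻¹ * b0⁻¹ * a⁻¹ * (a * v) * b = a0⁻¹ * (b0⁻¹ * v) * b := by group
      rw [h5, hdv]
      group
    rw [h1, h2, inP_iff h (A.inv_mem ha0) (B.mul_mem (B.inv_mem (h.hyp.sb.le0 hb0)) hb),
      inP_iff h (A.mul_mem (A.inv_mem ha0) haa)
        (B.mul_mem (B.inv_mem (h.hyp.sb.le0 hb2)) hb)] at hside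
    by_cases h6 : a0⁻¹ ∈ A0
    · have h7 := A0.mul_mem (A0.inv_mem h6) (hside.mp h6)
      have h8 : a0⁻¹⁻¹ * (a0⁻¹ * (a0 * a2⁻¹)) = a0 * a2⁻¹ := by group
      rwa [h8] at h7
    · have h9 : a0 ∉ A0 := fun h9 => h6 (A0.inv_mem h9)
      have h10 : a0⁻¹ * (a0 * a2⁻¹) ∉ A0 := fun h10 => h6 (hside.mpr h10)
      have h7 := h.hyp.sa.idx _ ha0 _ (A.mul_mem (A.inv_mem ha0) haa) h9 h10
      have h8 : a0 * (a0⁻¹ * (a0 * a2⁻¹)) = a0 * a2⁻¹ := by group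
      rwa [h8] at h7
  have hgood : ∀ x ∈ A0, x * b0⁻¹ = b0⁻¹ * x → x = 1 := by
    intro x hx hxd
    have h1 : k' * (a0⁻¹ * x * a0) * k'⁻¹ = x := by
      rw [hk0]
      have h2 : b0 * a0 * (a0⁻¹ * x * a0) * (b0 * a0)⁻¹ = b0 * (x * b0⁻¹) := by group
      rw [h2, hxd]
      group
    have h3 := hk'g _ (conjA' h ha0 x hx) (by rw [h1]; exact hx)
    have h4 : x = a0 * (a0⁻¹ * x * a0) * a0⁻¹ := by group
    rw [h4, h3]
    group
  have hd1 : b0⁻¹ ≠ 1 := by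
    intro h1
    obtain ⟨x, hx, hx1⟩ := exists_ne h
    exact hx1 (hgood x hx (by rw [h1]; group))
  obtain ⟨x, hx, hx1, hxd⟩ := exists_cent0 h
    (h8 v hvA b0⁻¹ (B0.inv_mem hb0) hv1 hd1 hvc ⟨_, hα, _, B0.inv_mem hb2, hdv⟩)
  exact hx1 (hgood x hx hxd)

/-- Only finitely many elements of prime order in `A0`. -/
theorem fin_prime0 {G : Type} [Group G] {A A0 P : Subgroup G} (h : Side A A0 P) :
    {x | x ∈ A0 ∧ (orderOf x).Prime}.Finite := by
  classical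
  have hrel : P.relIndex A0 ≠ 0 := fun h0 =>
    h.dp.fin (Subgroup.relIndex_eq_zero_of_le_right h.le0 h0)
  obtain ⟨n, hn0, hn⟩ : ∃ n : ℕ, 0 < n ∧ ∀ x ∈ A0, x ^ n ∈ P := by
    refine ⟨(P.relIndex A0).factorial, Nat.factorial_pos _, ?_⟩
    intro x hx
    exact (pow_mem_of_relIndex_ne_zero_of_dvd hrel hx (n := (P.relIndex A0).factorial)
      (fun m hm hle => Nat.dvd_factorial hm hle)).1
  have hsub : {x | x ∈ A0 ∧ (orderOf x).Prime} ⊆
      {x | x ∈ P ∧ (orderOf x).Prime} ∪ {x | x ∈ A0 ∧ x ^ n = 1} := by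
    rintro x ⟨hx, hp⟩
    by_cases hd : orderOf x ∣ n
    · exact Or.inr ⟨hx, orderOf_dvd_iff_pow_eq_one.mp hd⟩
    · refine Or.inl ⟨?_, hp⟩
      have hcop : (orderOf x).Coprime n := (Nat.Prime.coprime_iff_not_dvd hp).mpr hd
      have h1 : x ∈ Subgroup.zpowers (x ^ n) := by
        rw [Subgroup.mem_zpowers_iff]
        obtain ⟨m, hm⟩ := exists_pow_eq_self_of_coprime hcop.symm
        exact ⟨m, by rw [zpow_natCast]; exact hm⟩
      exact (Subgroup.zpowers_le.mpr (hn x hx)) h1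
  exact (h.dp.dc.fin_prime.union (h.fin_tors0 n hn0)).subset hsub

/-- A nontrivial element of `A0` has infinitely many conjugates under `B`. -/
theorem cent_infinite (h : Cfg A A0 P B B0 Q) {z : G} (hz : z ∈ A0) (hz1 : z ≠ 1) :
    (Subgroup.centralizer {z}).relIndex B = 0 := by
  by_contra hne
  have h1 : (Subgroup.centralizer {z}).relIndex Q ≠ 0 := fun h0 =>
    hne (Subgroup.relIndex_eq_zero_of_le_right h.hyp.sb.dp.le h0)
  have h2 : Q ≤ Subgroup.centralizer {z} := h.hyp.sb.dp.dc.le_of_relIndex h1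
  have h3 : ∀ q ∈ Q, q * z = z * q := by
    intro q hq
    exact Subgroup.mem_centralizer_singleton_iff.mp (h2 hq)
  have h4 : z ∈ Nz Q := by
    intro q hq
    have h5 := h3 q hq
    refine ⟨?_, ?_⟩
    · rw [← h5, mul_inv_cancel_right]; exact hq
    · rw [mul_assoc, h5, inv_mul_cancel_left]; exact hq
  have h5 := h.symm.fin_cent_of_mem_Nz hz h4 hz1
  apply h.symm.infP
  refine h5.subset ?_
  intro q hq
  exact ⟨h.hyp.sb.dp.le hq, h3 q hq⟩

/-- (G1): finitely many walls have a common good partner. -/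
theorem exists_good (h : Cfg A A0 P B B0 Q) (S : Finset G) :
    ∃ g : G, ∀ s ∈ S, Good A0 (g⁻¹ * s) := by
  classical
  by_contra hcon
  push Not at hcon
  have hΩ := fin_prime0 h.hyp.sa
  obtain ⟨Ω, hΩe⟩ : ∃ Ω : Finset G, ∀ x, x ∈ Ω ↔ (x ∈ A0 ∧ (orderOf x).Prime) :=
    ⟨hΩ.toFinset, fun x => by rw [Set.Finite.mem_toFinset]; rfl⟩
  -- the index set
  let R : G × G × G → ↥B → Prop := fun c b =>
    (b : G)⁻¹ * (c.1 * c.2.1 * c.1⁻¹) * (b : G) = c.2.2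
  let e : G × G × G → ↥B := fun c => if hc : ∃ b, R c b then hc.choose else 1
  let H : G × G × G → Subgroup ↥B := fun c => (Subgroup.centralizer {c.2.2}).subgroupOf B
  have hcov : ⋃ c ∈ S ×ˢ (Ω ×ˢ Ω), e c • (H c : Set ↥B) = Set.univ := by
    rw [Set.eq_univ_iff_forall]
    intro b
    obtain ⟨s, hs, hbad⟩ := hcon (b : G)
    have hbad2 : ∃ x ∈ A0, ((b : G)⁻¹ * s) * x * ((b : G)⁻¹ * s)⁻¹ ∈ A0 ∧ x ≠ 1 := by
      by_contra hc2
      push Not at hc2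
      exact hbad (fun x hx hx2 => hc2 x hx hx2)
    obtain ⟨x, hx, hx2, hx1⟩ := hbad2
    obtain ⟨n, hn, hn1⟩ := h.hyp.sa.dp.torsion (h.hyp.sa.le0 hx)
    have hord : orderOf x ≠ 1 := fun h1 => hx1 (orderOf_eq_one_iff.mp h1)
    have hpos : 0 < orderOf x := by
      rw [orderOf_pos_iff, isOfFinOrder_iff_pow_eq_one]
      exact ⟨n, hn, hn1⟩
    obtain ⟨p, hp, m, hm⟩ := Nat.exists_prime_and_dvd hord
    have hm0 : m ≠ 0 := by
      rintro rfl
      rw [hm] at hpos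
      simp at hpos
    have hop : orderOf (x ^ m) = p := by
      rw [orderOf_pow_of_dvd hm0 ⟨p, by rw [hm, mul_comm]⟩, hm]
      exact Nat.mul_div_cancel _ (Nat.pos_of_ne_zero hm0)
    obtain ⟨y, hy⟩ : ∃ y, y = ((b : G)⁻¹ * s) * (x ^ m) * ((b : G)⁻¹ * s)⁻¹ := ⟨_, rfl⟩
    have hyA : y ∈ A0 := by
      rw [hy, ← conj_pow]
      exact A0.pow_mem hx2 m
    have hoy : orderOf y = p := by
      have h1 : y = MulAut.conj ((b : G)⁻¹ * s) (x ^ m) := by rw [hy]; rfl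
      rw [h1, MulEquiv.orderOf_eq, hop]
    have hmem : (s, x ^ m, y) ∈ S ×ˢ (Ω ×ˢ Ω) := by
      rw [Finset.mem_product, Finset.mem_product]
      exact ⟨hs, (hΩe _).mpr ⟨A0.pow_mem hx m, by rw [hop]; exact hp⟩,
        (hΩe _).mpr ⟨hyA, by rw [hoy]; exact hp⟩⟩
    refine Set.mem_biUnion hmem ?_
    have hR : R (s, x ^ m, y) b := by
      show (b : G)⁻¹ * (s * x ^ m * s⁻¹) * (b : G) = y
      rw [hy]
      group
    have hex : ∃ b, R (s, x ^ m, y) b := ⟨b, hR⟩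
    have hec : e (s, x ^ m, y) = hex.choose := dif_pos hex
    have hR2 : R (s, x ^ m, y) (e (s, x ^ m, y)) := by
      rw [hec]
      exact hex.choose_spec
    rw [Set.mem_smul_set_iff_inv_smul_mem, smul_eq_mul, SetLike.mem_coe,
      Subgroup.mem_subgroupOf, Subgroup.mem_centralizer_singleton_iff]
    push_cast
    generalize e (s, x ^ m, y) = b1 at hR2
    have h1 : (b : G)⁻¹ * (s * x ^ m * s⁻¹) * (b : G) = y := hR
    have h2 : (b1 : G)⁻¹ * (s * x ^ m * s⁻¹) * (b1 : G) = y := hR2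
    show (b1 : G)⁻¹ * (b : G) * y = y * ((b1 : G)⁻¹ * (b : G))
    calc (b1 : G)⁻¹ * (b : G) * y = (b1 : G)⁻¹ * (b : G) *
          ((b : G)⁻¹ * (s * x ^ m * s⁻¹) * (b : G)) := by rw [h1]
      _ = ((b1 : G)⁻¹ * (s * x ^ m * s⁻¹) * (b1 : G)) * ((b1 : G)⁻¹ * (b : G)) := by group
      _ = _ := by rw [h2]
  obtain ⟨c, hc, hfin⟩ := Subgroup.exists_finiteIndex_of_leftCoset_cover hcov
  rw [Finset.mem_product, Finset.mem_product] at hc
  have hz := (hΩe _).mp hc.2.2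
  have hz1 : c.2.2 ≠ 1 := by
    intro h1
    rw [h1, orderOf_one] at hz
    exact Nat.not_prime_one hz.2
  exact hfin.index_ne_zero (cent_infinite h hz.1 hz1)

/-- (N): every finite set of walls lies on one side of some point. -/
theorem exists_nonsep (h : Cfg A A0 P B B0 Q) (h8 : T8 A A0 B0)
    (hinf : {u | u ∈ A ∧ ∀ x ∈ A, x * u = u * x}.Infinite) (S : Finset G) (hS : S.Nonempty) :
    ∃ g : G, ∀ s ∈ S, InP B0 A (g⁻¹ * s) := by
  classical
  obtain ⟨g0, hg0⟩ := exists_good h S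
  have hfin : ∀ s ∈ S, {u | (u ∈ A ∧ ∀ x ∈ A, x * u = u * x) ∧
      InP B0 A (u⁻¹ * (g0⁻¹ * s))}.Finite := by
    intro s hs
    by_contra hcon
    obtain ⟨f, hf, hfm⟩ : ∃ f : Fin 3 → G, Function.Injective f ∧ ∀ i, f i ∈
        {u | (u ∈ A ∧ ∀ x ∈ A, x * u = u * x) ∧ InP B0 A (u⁻¹ * (g0⁻¹ * s))} := by
      have hi : {u | (u ∈ A ∧ ∀ x ∈ A, x * u = u * x) ∧
        InP B0 A (u⁻¹ * (g0⁻¹ * s))}.Infinite := hcon
      refine ⟨fun i => hi.natEmbedding _ i, ?_, fun i => (hi.natEmbedding _ i).2⟩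
      intro i j hij
      have h1 := (hi.natEmbedding _).injective (Subtype.ext hij)
      exact Fin.ext h1
    refine P3 h h8 (k := g0⁻¹ * s) (w := 1) (hg0 s hs) (u := f) (fun i => (hfm i).1.1)
      (fun i => (hfm i).1.2) hf ?_
    intro i
    have h1 : InP B0 A (1⁻¹ * (f i)⁻¹) := by
      rw [inv_one, one_mul]
      exact InP.of_mem (A.inv_mem (hfm i).1.1)
    have h2 : InP B0 A (1⁻¹ * (f i)⁻¹ * (g0⁻¹ * s)) := by
      rw [inv_one, one_mul]
      exact (hfm i).2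
    exact ⟨fun _ => h2, fun _ => h1⟩
  obtain ⟨v, hv, hvn⟩ := hinf.exists_notMem_finite (Set.Finite.biUnion S.finite_toSet hfin)
  have hout : ∀ s ∈ S, ¬ InP B0 A (v⁻¹ * (g0⁻¹ * s)) := by
    intro s hs hin
    exact hvn (Set.mem_biUnion (Finset.mem_coe.mpr hs) ⟨hv, hin⟩)
  obtain ⟨s0, hs0⟩ := hS
  obtain ⟨b1, hb1, hb10⟩ := exists_out h (hout s0 hs0)
  refine ⟨g0 * v * b1⁻¹, ?_⟩
  intro s hs
  have h1 := inP_shift h hb1 hb10 (hout s hs)
  have h2 : (g0 * v * b1⁻¹)⁻¹ * s = b1 * (v⁻¹ * (g0⁻¹ * s)) := by group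
  rw [h2]
  exact h1

/-- The centre of `A` is finite. -/
theorem Cfg.center_finite (h : Cfg A A0 P B B0 Q) (h8 : T8 A A0 B0) :
    {u | u ∈ A ∧ ∀ x ∈ A, x * u = u * x}.Finite := by
  classical
  by_contra hcon
  have hinf : {u | u ∈ A ∧ ∀ x ∈ A, x * u = u * x}.Infinite := hcon
  obtain ⟨k0, hk0⟩ := exists_good h {1}
  have hk : Good A0 k0⁻¹ := by
    have := hk0 1 (Finset.mem_singleton_self _)
    rwa [mul_one] at this
  obtain ⟨u, hu⟩ : ∃ u : Fin 3 → {u | u ∈ A ∧ ∀ x ∈ A, x * u = u * x}, Function.Injective u :=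
    ⟨fun i => hinf.natEmbedding _ i, fun i j hij =>
      Fin.ext ((hinf.natEmbedding _).injective hij)⟩
  obtain ⟨g, hg⟩ := exists_nonsep h h8 hinf
    (insert (1 : G) (Finset.univ.image (fun i => ((u i : G))⁻¹ * k0⁻¹))) ⟨1, by simp⟩
  refine P3 h h8 (k := k0⁻¹) (w := g) hk (u := fun i => (u i : G)) (fun i => (u i).2.1)
    (fun i => (u i).2.2) (fun i j hij => hu (Subtype.ext hij)) ?_
  intro i
  have h1 : InP B0 A (g⁻¹ * (u i : G)⁻¹) := by
    have := hg 1 (Finset.mem_insert_self _ _)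
    rw [mul_one] at this
    exact this.mul_right (A.inv_mem (u i).2.1)
  have h2 : InP B0 A (g⁻¹ * (u i : G)⁻¹ * k0⁻¹) := by
    have := hg ((u i : G)⁻¹ * k0⁻¹) (Finset.mem_insert_of_mem
      (Finset.mem_image_of_mem _ (Finset.mem_univ i)))
    rw [← mul_assoc] at this
    exact this
  exact ⟨fun _ => h2, fun _ => h1⟩

end

end H78.CT
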